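import Mathlib

set_option autoImplicit false

namespace Pool.Agent.Results.MP_c6110c_co.ChainLogBound

open Finset

/-! ### Definitions used in the statement -/

/-- Monotone partial functions from the poset `P` to the chain with `t` elements.  The map
`toFun : P → Option (Fin t)` encodes a partial function: `x` lies in the domain iff
`toFun x ≠ none`.  It is monotone: `x ≤ y` in the domain implies `f x ≤ f y`. -/
structure MonoPartial (P : Type) [PartialOrder P] (t : ℕ) where
  /-- the underlying partial function -/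
  toFun : P → Option (Fin t)
  /-- monotonicity on the domain -/
  mono : ∀ (x y : P) (a b : Fin t), toFun x = some a → toFun y = some b → x ≤ y → a ≤ b

instance instFiniteMonoPartial (P : Type) [PartialOrder P] [Fintype P] (t : ℕ) :
    Finite (MonoPartial P t) :=
  Finite.of_injective (fun f : MonoPartial P t => f.toFun) (by
    rintro ⟨f, hf⟩ ⟨g, hg⟩ h
    simp only at h
    subst h
    rfl)

/-- There are finitely many monotone partial functions on a finite poset. -/
noncomputable instance instFintypeMonoPartial (P : Type) [PartialOrder P] [Fintype P] (t : ℕ) :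
    Fintype (MonoPartial P t) := Fintype.ofFinite _

/-- `x, y ∈ dom f` and `f x < f y`. -/
def Separates {P : Type} [PartialOrder P] {t : ℕ} (f : MonoPartial P t) (x y : P) : Prop :=
  ∃ a b : Fin t, f.toFun x = some a ∧ f.toFun y = some b ∧ a < b

open Classical in
/-- Fractional local `t`-realisers of a finite poset `P`: nonnegative weights on the monotone
partial functions such that for all `x, y` with `x ≱ y` the total weight of those `f` with
`x, y ∈ dom f` and `f x < f y` is at least `1`. -/
def IsFracLocalRealiser {P : Type} [PartialOrder P] [Fintype P] {t : ℕ}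
    (w : MonoPartial P t → ℝ) : Prop :=
  (∀ f, 0 ≤ w f) ∧ ∀ x y : P, ¬ (y ≤ x) → 1 ≤ ∑ f : MonoPartial P t with Separates f x y, w f

open Classical in
/-- The total weight of the `f` with `x ∈ dom f`. -/
noncomputable def load {P : Type} [PartialOrder P] [Fintype P] {t : ℕ}
    (w : MonoPartial P t → ℝ) (x : P) : ℝ :=
  ∑ f : MonoPartial P t with (f.toFun x).isSome, w f

/-- The fractional local `t`-dimension: the infimum over all fractional local `t`-realisers of the
maximal load. -/
noncomputable def fldim (t : ℕ) (P : Type) [PartialOrder P] [Fintype P] : ℝ :=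
  sInf {r : ℝ | ∃ w : MonoPartial P t → ℝ, IsFracLocalRealiser w ∧ r = ⨆ x, load w x}

/-! ### Harmonic sums -/

/-- Harmonic numbers as reals. -/
noncomputable def H (n : ℕ) : ℝ := ∑ i ∈ range n, 1 / ((i : ℝ) + 1)

lemma H_succ (n : ℕ) : H (n + 1) = H n + 1 / ((n : ℝ) + 1) := by
  simp [H, sum_range_succ]

lemma H_zero : H 0 = 0 := by simp [H]

lemma log_succ_sub_le (k : ℕ) : Real.log ((k : ℝ) + 2) - Real.log ((k : ℝ) + 1) ≤ 1 / ((k : ℝ) + 1) := by
  have hk : (0 : ℝ) < (k : ℝ) + 1 := by positivity
  have hk2 : (0 : ℝ) < (k : ℝ) + 2 := by positivity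
  rw [← Real.log_div hk2.ne' hk.ne']
  have := Real.log_le_sub_one_of_pos (div_pos hk2 hk)
  have e : ((k : ℝ) + 2) / ((k : ℝ) + 1) - 1 = 1 / ((k : ℝ) + 1) := by
    field_simp; ring
  linarith

lemma le_log_succ_sub (k : ℕ) (hk0 : 1 ≤ k) : 1 / ((k : ℝ) + 1) ≤ Real.log ((k : ℝ) + 1) - Real.log (k : ℝ) := by
  have hk : (0 : ℝ) < (k : ℝ) := by exact_mod_cast hk0
  have hk2 : (0 : ℝ) < (k : ℝ) + 1 := by positivity
  have := Real.log_le_sub_one_of_pos (div_pos hk hk2)
  rw [Real.log_div hk.ne' hk2.ne'] at this
  have e : (k : ℝ) / ((k : ℝ) + 1) - 1 = - (1 / ((k : ℝ) + 1)) := by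
    field_simp; ring
  linarith

lemma log_le_H (n : ℕ) : Real.log ((n : ℝ) + 1) ≤ H n := by
  induction n with
  | zero => simp [H]
  | succ n ih =>
    rw [H_succ]
    have := log_succ_sub_le n
    push_cast
    have e : (n : ℝ) + 1 + 1 = (n : ℝ) + 2 := by ring
    rw [e]
    linarith

lemma H_sub_H_le (a M : ℕ) (ha : 1 ≤ a) (haM : a ≤ M) :
    H M - H a ≤ Real.log M - Real.log a := by
  induction M, haM using Nat.le_induction with
  | base => simp
  | succ M hM ih =>
    rw [H_succ]
    have := le_log_succ_sub M (ha.trans hM)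
    push_cast
    linarith

lemma sum_H (M : ℕ) : ∑ i ∈ range M, H i = M * H M - M := by
  induction M with
  | zero => simp
  | succ M ih =>
    rw [sum_range_succ, ih, H_succ]
    push_cast
    field_simp
    ring

/-! ### The combinatorial inequality -/

lemma sum_inv_le (B : Finset ℕ) (a y : ℕ) (hB : ∀ x ∈ B, x + a < y) :
    ∑ x ∈ B, 1 / ((y : ℝ) - x) ≤ H (a + B.card) - H a := by
  induction B using Finset.induction_on_max_value (fun x : ℕ => -(x : ℤ)) with
  | empty => simp
  | insert x₀ B hx₀ hmax ih =>
    rw [sum_insert hx₀, card_insert_of_notMem hx₀]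
    have h1 := ih (fun x hx => hB x (mem_insert_of_mem hx))
    have h2 : B ⊆ Ioo x₀ (y - a) := by
      intro x hx
      have h3 := hmax x hx
      have h4 := hB x (mem_insert_of_mem hx)
      have h5 : x ≠ x₀ := fun h => hx₀ (h ▸ hx)
      rw [mem_Ioo]
      constructor
      · have : (x₀ : ℤ) ≤ x := by simpa using h3
        omega
      · omega
    have h3 := card_le_card h2
    rw [Nat.card_Ioo] at h3
    have h4 := hB x₀ (mem_insert_self _ _)
    have h5 : a + B.card + 1 + x₀ ≤ y := by omega
    rw [← add_assoc, H_succ]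
    have h6 : ((a + B.card : ℕ) : ℝ) + 1 ≤ (y : ℝ) - x₀ := by
      have : ((a + B.card + 1 + x₀ : ℕ) : ℝ) ≤ (y : ℝ) := by exact_mod_cast h5
      push_cast at this ⊢
      linarith
    have h7 : 1 / ((y : ℝ) - x₀) ≤ 1 / (((a + B.card : ℕ) : ℝ) + 1) :=
      one_div_le_one_div_of_le (by positivity) h6
    linarith

lemma sum_card_lt (A : Finset ℕ) (φ : ℕ → ℝ) :
    ∑ y ∈ A, φ (A.filter (fun x => x < y)).card = ∑ i ∈ range A.card, φ i := by
  induction A using Finset.induction_on_max with
  | empty => simp
  | insert m A hm ih =>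
    have hmA : m ∉ A := fun h => lt_irrefl _ (hm m h)
    rw [sum_insert hmA, card_insert_of_notMem hmA, sum_range_succ, ← ih, add_comm]
    congr 1
    · apply sum_congr rfl
      intro z hz
      congr 2
      ext x
      simp only [mem_filter, mem_insert]
      constructor
      · rintro ⟨h1 | h1, h2⟩
        · exact absurd (hm z hz) (by omega)
        · exact ⟨h1, h2⟩
      · rintro ⟨h1, h2⟩
        exact ⟨Or.inr h1, h2⟩
    · congr 2
      ext x
      simp only [mem_filter, mem_insert]
      constructor
      · rintro ⟨h1 | h1, h2⟩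
        · omega
        · exact h1
      · intro h1
        exact ⟨Or.inr h1, hm x h1⟩

/-- For a monotone map `f` from a finite set `A` of integers to `t` levels, the sum of `1/(y-x)` over
the separated pairs is at most `|A| log t`. -/
lemma sep_sum_le (t : ℕ) (ht : 1 ≤ t) (A : Finset ℕ) (f : ℕ → ℕ) (hft : ∀ x ∈ A, f x < t)
    (hf : ∀ x ∈ A, ∀ y ∈ A, x ≤ y → f x ≤ f y) :
    ∑ y ∈ A, ∑ x ∈ A with (x < y ∧ f x < f y), 1 / ((y : ℝ) - x) ≤ A.card * Real.log t := by
  have htR : (0 : ℝ) < t := by exact_mod_cast ht
  -- step 1: pointwise bound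
  have h1 : ∀ y ∈ A, ∑ x ∈ A with (x < y ∧ f x < f y), 1 / ((y : ℝ) - x) ≤
      H (A.filter (fun x => x < y)).card -
        H ((A.filter (fun x => f x = f y)).filter (fun x => x < y)).card := by
    intro y hy
    set B := A.filter (fun x => x < y ∧ f x < f y) with hB
    set E := (A.filter (fun x => f x = f y)).filter (fun x => x < y) with hE
    have hcard : E.card + B.card = (A.filter (fun x => x < y)).card := by
      rw [← card_union_of_disjoint]
      · congr 1
        ext x
        simp only [hB, hE, mem_union, mem_filter]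
        constructor
        · rintro (⟨⟨h1, h2⟩, h3⟩ | ⟨h1, h2, h3⟩)
          · exact ⟨h1, h3⟩
          · exact ⟨h1, h2⟩
        · rintro ⟨h1, h2⟩
          have := hf x h1 y hy h2.le
          rcases this.eq_or_lt with h | h
          · exact Or.inl ⟨⟨h1, h⟩, h2⟩
          · exact Or.inr ⟨h1, h2, h⟩
      · rw [Finset.disjoint_left]
        intro x hx hx2
        simp only [hB, hE, mem_filter] at hx hx2
        omega
    have hBE : ∀ x ∈ B, x + E.card < y := by
      intro x hx
      simp only [hB, mem_filter] at hx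
      have hsub : E ⊆ Ioo x y := by
        intro z hz
        simp only [hE, mem_filter] at hz
        rw [mem_Ioo]
        refine ⟨?_, hz.2⟩
        by_contra hcon
        have := hf z hz.1.1 x hx.1 (by omega)
        omega
      have := card_le_card hsub
      rw [Nat.card_Ioo] at this
      omega
    have := sum_inv_le B E.card y hBE
    rw [hcard] at this
    exact this
  -- step 2: sum up
  have h2 := sum_le_sum h1
  rw [sum_sub_distrib, sum_card_lt A H, sum_H] at h2
  have h3 : ∑ y ∈ A, H ((A.filter (fun x => f x = f y)).filter (fun x => x < y)).card =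
      ∑ j ∈ range t, (((A.filter (fun x => f x = j)).card : ℝ) *
        H (A.filter (fun x => f x = j)).card - (A.filter (fun x => f x = j)).card) := by
    rw [← sum_fiberwise_of_maps_to (g := f) (t := range t) (s := A)
      (fun x hx => mem_range.mpr (hft x hx))]
    apply sum_congr rfl
    intro j _
    rw [← sum_H, ← sum_card_lt (A.filter (fun x => f x = j)) H]
    apply sum_congr rfl
    intro y hy
    rw [mem_filter] at hy
    rw [hy.2]
  have h4 : (A.card : ℝ) = ∑ j ∈ range t, ((A.filter (fun x => f x = j)).card : ℝ) := by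
    rw [← Nat.cast_sum]
    congr 1
    exact card_eq_sum_card_fiberwise (fun x hx => mem_coe.mpr (mem_range.mpr (hft x hx)))
  rw [h3] at h2
  refine h2.trans ?_
  set M : ℝ := (A.card : ℝ) with hM
  have h5 : M * H A.card - M - ∑ j ∈ range t, (((A.filter (fun x => f x = j)).card : ℝ) *
        H (A.filter (fun x => f x = j)).card - (A.filter (fun x => f x = j)).card) =
      ∑ j ∈ range t, ((A.filter (fun x => f x = j)).card : ℝ) *
        (H A.card - H (A.filter (fun x => f x = j)).card) := by
    rw [sum_sub_distrib, ← h4]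
    simp_rw [mul_sub]
    rw [sum_sub_distrib, ← sum_mul, ← h4]
    ring
  rw [h5]
  have h6 : ∀ j ∈ range t, ((A.filter (fun x => f x = j)).card : ℝ) *
        (H A.card - H (A.filter (fun x => f x = j)).card) ≤
        ((A.filter (fun x => f x = j)).card : ℝ) * Real.log t +
          (M / t - (A.filter (fun x => f x = j)).card) := by
    intro j _
    set a := (A.filter (fun x => f x = j)).card with ha
    rcases Nat.eq_zero_or_pos a with h0 | h0
    · rw [h0]
      simp only [Nat.cast_zero, zero_mul, zero_add, sub_zero]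
      positivity
    · have haM : a ≤ A.card := card_le_card (filter_subset _ _)
      have haR : (0 : ℝ) < a := by exact_mod_cast h0
      have hMR : (0 : ℝ) < M := by
        have : 0 < A.card := lt_of_lt_of_le h0 haM
        rw [hM]; exact_mod_cast this
      have h7 := H_sub_H_le a A.card h0 haM
      have h8 := Real.log_le_sub_one_of_pos (div_pos hMR (mul_pos htR haR))
      rw [Real.log_div hMR.ne' (mul_pos htR haR).ne', Real.log_mul htR.ne' haR.ne'] at h8
      have h9 : (a : ℝ) * (H A.card - H a) ≤ a * (Real.log M - Real.log a) :=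
        mul_le_mul_of_nonneg_left h7 haR.le
      have h10 : (a : ℝ) * (Real.log M - (Real.log t + Real.log a)) ≤ a * (M / (t * a) - 1) :=
        mul_le_mul_of_nonneg_left h8 haR.le
      have h11 : (a : ℝ) * (M / (t * a) - 1) = M / t - a := by
        field_simp
      nlinarith
  refine (sum_le_sum h6).trans ?_
  rw [sum_add_distrib, ← sum_mul, ← h4, sum_sub_distrib, ← h4, sum_const, card_range, nsmul_eq_mul]
  have : (t : ℝ) * (M / t) = M := by field_simp
  rw [this]
  linarith

/-! ### Weighted families of monotone partial functions on `{0, …, n-1}` -/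

/-- `f : ℕ → Option ℕ` separates `x` and `y`. -/
def Sep (f : ℕ → Option ℕ) (x y : ℕ) : Prop := ∃ a b : ℕ, f x = some a ∧ f y = some b ∧ a < b

open Classical in
/-- There is a weighted family witnessing that the chain on `n` elements has maximal load `≤ r`. -/
def Fam (t n : ℕ) (r : ℝ) : Prop :=
  ∃ (ι : Type) (_ : Fintype ι) (f : ι → ℕ → Option ℕ) (w : ι → ℝ),
    (∀ i, 0 ≤ w i) ∧ (∀ i x a, f i x = some a → a < t) ∧
    (∀ i x y a b, y < n → x ≤ y → f i x = some a → f i y = some b → a ≤ b) ∧
    (∀ x y, x < y → y < n → 1 ≤ ∑ i, if Sep (f i) x y then w i else 0) ∧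
    (∀ x, x < n → ∑ i, (if (f i x).isSome then w i else 0) ≤ r)

open Classical in
lemma Fam.mul {t m n : ℕ} {r s : ℝ} (h₁ : Fam t m r) (h₂ : Fam t n s) : Fam t (m * n) (r + s) := by
  obtain ⟨ι, hι, f, w, hw, hft, hfm, hfc, hfl⟩ := h₁
  obtain ⟨κ, hκ, g, v, hv, hgt, hgm, hgc, hgl⟩ := h₂
  refine ⟨ι ⊕ (Fin m × κ), inferInstance,
    fun k x => match k with
      | Sum.inl i => f i (x / n)
      | Sum.inr (j, i) => if x / n = (j : ℕ) then g i (x % n) else none,
    fun k => match k with
      | Sum.inl i => w i
      | Sum.inr (_, i) => v i, ?_, ?_, ?_, ?_, ?_⟩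
  · rintro (i | ⟨j, i⟩)
    · exact hw i
    · exact hv i
  · rintro (i | ⟨j, i⟩) x a h
    · exact hft i _ a h
    · simp only at h
      split_ifs at h with hx
      exact hgt i _ a h
  · rintro (i | ⟨j, i⟩) x y a b hy hxy hx1 hy1
    · refine hfm i _ _ a b ?_ (Nat.div_le_div_right hxy) hx1 hy1
      exact Nat.div_lt_of_lt_mul (by rw [mul_comm]; exact hy)
    · simp only at hx1 hy1
      split_ifs at hx1 hy1 with h1 h2
      have hn : 0 < n := by
        rcases Nat.eq_zero_or_pos n with h | h
        · subst h; simp at hy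
        · exact h
      refine hgm i _ _ a b (Nat.mod_lt _ hn) ?_ hx1 hy1
      have e1 := Nat.div_add_mod x n
      have e2 := Nat.div_add_mod y n
      rw [h1] at e1
      rw [h2] at e2
      omega
  · intro x y hxy hy
    have hn : 0 < n := by
      rcases Nat.eq_zero_or_pos n with h | h
      · subst h; simp at hy
      · exact h
    rw [Fintype.sum_sum_type, Fintype.sum_prod_type]
    have hym : y / n < m := Nat.div_lt_of_lt_mul (by rw [mul_comm]; exact hy)
    have hnn1 : 0 ≤ ∑ i, (if Sep (fun x => f i (x / n)) x y then w i else 0) :=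
      sum_nonneg (fun i _ => by split_ifs; exacts [hw i, le_rfl])
    have hnn2 : ∀ j : Fin m, 0 ≤ ∑ i, (if Sep (fun x => if x / n = (j : ℕ) then g i (x % n) else none) x y
        then v i else 0) :=
      fun j => sum_nonneg (fun i _ => by split_ifs; exacts [hv i, le_rfl])
    rcases (Nat.div_le_div_right (c := n) hxy.le).eq_or_lt with heq | hlt
    · have hmod : x % n < y % n := by
        have e1 := Nat.div_add_mod x n
        have e2 := Nat.div_add_mod y n
        rw [heq] at e1
        omega
      have h1 := hgc (x % n) (y % n) hmod (Nat.mod_lt _ hn)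
      have h2 : ∑ i, (if Sep (g i) (x % n) (y % n) then v i else 0) =
          ∑ i, (if Sep (fun x => if x / n = ((⟨y / n, hym⟩ : Fin m) : ℕ) then g i (x % n) else none) x y
            then v i else 0) := by
        apply sum_congr rfl
        intro i _
        have : Sep (g i) (x % n) (y % n) ↔
            Sep (fun x => if x / n = ((⟨y / n, hym⟩ : Fin m) : ℕ) then g i (x % n) else none) x y := by
          simp [Sep, heq]
        simp only [this]
      rw [h2] at h1
      have h3 := single_le_sum (fun j _ => hnn2 j) (mem_univ (⟨y / n, hym⟩ : Fin m))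
      simp only at h3 ⊢
      linarith
    · have h1 := hfc (x / n) (y / n) hlt hym
      have h2 : ∑ i, (if Sep (f i) (x / n) (y / n) then w i else 0) =
          ∑ i, (if Sep (fun x => f i (x / n)) x y then w i else 0) := by
        apply sum_congr rfl
        intro i _
        rfl
      rw [h2] at h1
      have h3 := sum_nonneg (s := (univ : Finset (Fin m))) (fun j _ => hnn2 j)
      simp only at h3 ⊢
      linarith
  · intro x hx
    have hn : 0 < n := by
      rcases Nat.eq_zero_or_pos n with h | h
      · subst h; simp at hx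
      · exact h
    have hxm : x / n < m := Nat.div_lt_of_lt_mul (by rw [mul_comm]; exact hx)
    rw [Fintype.sum_sum_type, Fintype.sum_prod_type]
    have h1 := hfl (x / n) hxm
    have h2 := hgl (x % n) (Nat.mod_lt _ hn)
    simp only
    refine add_le_add h1 ?_
    rw [sum_eq_single (⟨x / n, hxm⟩ : Fin m)]
    · simpa using h2
    · intro j _ hj
      have : x / n ≠ (j : ℕ) := by
        intro h
        apply hj
        ext
        exact h.symm
      simp [this]
    · intro h
      exact absurd (mem_univ _) h

open Classical in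
lemma Fam.bound {t n : ℕ} {r : ℝ} (ht : 1 ≤ t) (hn : 1 ≤ n) (h : Fam t n r) :
    H n - 1 ≤ r * Real.log t := by
  obtain ⟨ι, hι, f, w, hw, hft, hfm, hfc, hfl⟩ := h
  have hlog : 0 ≤ Real.log t := Real.log_nonneg (by exact_mod_cast ht)
  -- total sum of 1/(y-x)
  have h0 : ∑ y ∈ range n, ∑ x ∈ range n with x < y, 1 / ((y : ℝ) - x) = n * H n - n := by
    rw [← sum_H]
    apply sum_congr rfl
    intro y hy
    rw [mem_range] at hy
    have : (range n).filter (fun x => x < y) = range y := by
      ext x
      simp only [mem_filter, mem_range]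
      omega
    rw [this, ← sum_range_reflect]
    simp only [H]
    apply sum_congr rfl
    intro x hx
    rw [mem_range] at hx
    have : ((y - 1 - x : ℕ) : ℝ) = (y : ℝ) - 1 - x := by
      rw [Nat.sub_sub, Nat.cast_sub (by omega)]
      push_cast
      ring
    rw [this]
    congr 1
    ring
  -- each pair is covered
  have h1 : ∑ y ∈ range n, ∑ x ∈ range n with x < y, 1 / ((y : ℝ) - x) ≤
      ∑ y ∈ range n, ∑ x ∈ range n with x < y,
        ∑ i, (if Sep (f i) x y then w i else 0) * (1 / ((y : ℝ) - x)) := by
    apply sum_le_sum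
    intro y hy
    apply sum_le_sum
    intro x hx
    rw [mem_filter] at hx
    rw [mem_range] at hy
    rw [← sum_mul]
    have hpos : (0 : ℝ) ≤ 1 / ((y : ℝ) - x) := by
      apply div_nonneg zero_le_one
      have : (x : ℝ) < y := by exact_mod_cast hx.2
      linarith
    have := hfc x y hx.2 hy
    nlinarith
  have h2 : ∑ y ∈ range n, ∑ x ∈ range n with x < y,
        ∑ i, (if Sep (f i) x y then w i else 0) * (1 / ((y : ℝ) - x)) =
      ∑ i, w i * ∑ y ∈ range n, ∑ x ∈ range n with x < y,
        (if Sep (f i) x y then 1 / ((y : ℝ) - x) else 0) := by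
    have ha : ∀ y : ℕ, ∑ x ∈ range n with x < y,
        ∑ i, (if Sep (f i) x y then w i else 0) * (1 / ((y : ℝ) - x)) =
        ∑ i, ∑ x ∈ range n with x < y, (if Sep (f i) x y then w i else 0) * (1 / ((y : ℝ) - x)) :=
      fun y => sum_comm
    rw [sum_congr rfl (fun y _ => ha y), sum_comm]
    apply sum_congr rfl
    intro i _
    rw [mul_sum]
    apply sum_congr rfl
    intro y _
    rw [mul_sum]
    apply sum_congr rfl
    intro x _
    split_ifs <;> ring
  -- for each function the separated sum is at most `|dom| log t`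
  have h3 : ∀ i, ∑ y ∈ range n, ∑ x ∈ range n with x < y,
        (if Sep (f i) x y then 1 / ((y : ℝ) - x) else 0) ≤
      (∑ x ∈ range n, if (f i x).isSome then (1 : ℝ) else 0) * Real.log t := by
    intro i
    set A := (range n).filter (fun x => (f i x).isSome) with hA
    set φ : ℕ → ℕ := fun x => (f i x).getD 0 with hφ
    have hφs : ∀ x ∈ A, f i x = some (φ x) := by
      intro x hx
      simp only [hA, mem_filter] at hx
      obtain ⟨a, ha⟩ := Option.isSome_iff_exists.mp hx.2
      simp [hφ, ha]
    have key := sep_sum_le t ht A φ (fun x hx => hft i x _ (hφs x hx))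
      (fun x hx y hy hxy => hfm i x y _ _ (by simp only [hA, mem_filter, mem_range] at hy; exact hy.1)
        hxy (hφs x hx) (hφs y hy))
    have hcard : (∑ x ∈ range n, if (f i x).isSome then (1 : ℝ) else 0) = A.card := by
      rw [hA, card_filter]
      push_cast
      rfl
    rw [hcard]
    refine le_trans (le_of_eq ?_) key
    rw [hA, sum_filter]
    apply sum_congr rfl
    intro y hy
    rw [← hA]
    by_cases hyA : y ∈ A
    · have hy2 : (f i y).isSome := by
        simp only [hA, mem_filter] at hyA; exact hyA.2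
      rw [if_pos hy2, ← sum_filter, filter_filter]
      apply sum_congr _ (fun _ _ => rfl)
      ext x
      simp only [hA, mem_filter, mem_range]
      constructor
      · rintro ⟨h1, h2, a, b, h3, h4, h5⟩
        refine ⟨⟨h1, by simp [h3]⟩, h2, ?_⟩
        simp only [hφ, h3, h4, Option.getD_some]
        exact h5
      · rintro ⟨⟨h1, h2⟩, h3, h4⟩
        have h5 : x ∈ A := by simp only [hA, mem_filter, mem_range]; exact ⟨h1, h2⟩
        exact ⟨h1, h3, φ x, φ y, hφs x h5, hφs y hyA, h4⟩
    · have hy2 : ¬ (f i y).isSome := by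
        intro h
        exact hyA (by simp only [hA, mem_filter]; exact ⟨hy, h⟩)
      rw [if_neg hy2]
      apply sum_eq_zero
      intro x _
      rw [if_neg]
      rintro ⟨a, b, h3, h4, h5⟩
      exact hy2 (by simp [h4])
  have h4 : ∑ i, w i * ∑ y ∈ range n, ∑ x ∈ range n with x < y,
        (if Sep (f i) x y then 1 / ((y : ℝ) - x) else 0) ≤
      ∑ i, w i * ((∑ x ∈ range n, if (f i x).isSome then (1 : ℝ) else 0) * Real.log t) :=
    sum_le_sum (fun i _ => mul_le_mul_of_nonneg_left (h3 i) (hw i))
  have h5 : ∑ i, w i * ((∑ x ∈ range n, if (f i x).isSome then (1 : ℝ) else 0) * Real.log t) =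
      Real.log t * ∑ x ∈ range n, ∑ i, (if (f i x).isSome then w i else 0) := by
    rw [sum_comm, mul_sum]
    apply sum_congr rfl
    intro i _
    rw [← mul_assoc, mul_sum, mul_comm]
    congr 1
    apply sum_congr rfl
    intro x _
    split_ifs <;> simp
  have h6 : ∑ x ∈ range n, ∑ i, (if (f i x).isSome then w i else 0) ≤ n * r := by
    have := sum_le_sum (s := range n) (fun x hx => hfl x (mem_range.mp hx))
    rw [sum_const, card_range, nsmul_eq_mul] at this
    exact this
  have hnR : (0 : ℝ) < n := by exact_mod_cast hn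
  have h7 : (n : ℝ) * H n - n ≤ Real.log t * (n * r) := by
    rw [← h0]
    refine h1.trans ?_
    rw [h2]
    refine h4.trans ?_
    rw [h5]
    exact mul_le_mul_of_nonneg_left h6 hlog
  have h8 : (n : ℝ) * (H n - 1) ≤ n * (r * Real.log t) := by linarith
  exact le_of_mul_le_mul_left h8 hnR

lemma Fam.pow {t m : ℕ} {r : ℝ} (h : Fam t m r) :
    ∀ k : ℕ, Fam t (m ^ k) (k * r) := by
  intro k
  induction k with
  | zero =>
    refine ⟨Empty, inferInstance, fun e => e.elim, fun e => e.elim, ?_, ?_, ?_, ?_, ?_⟩
    · rintro ⟨⟩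
    · rintro ⟨⟩
    · rintro ⟨⟩
    · intro x y hxy hy
      simp at hy
      omega
    · intro x _
      simp
  | succ k ih =>
    rw [pow_succ]
    have := ih.mul h
    have e : ((k + 1 : ℕ) : ℝ) * r = k * r + r := by push_cast; ring
    rw [e]
    exact this

lemma Fam.log_le {t m : ℕ} {r : ℝ} (ht : 2 ≤ t) (hm : 1 ≤ m) (h : Fam t m r) :
    Real.log m ≤ r * Real.log t := by
  have hmR : (0 : ℝ) < m := by exact_mod_cast hm
  by_contra hcon
  push Not at hcon
  obtain ⟨k, hk⟩ := exists_nat_gt (1 / (Real.log m - r * Real.log t))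
  have hpos : 0 < Real.log m - r * Real.log t := by linarith
  have h1 := (h.pow k).bound (by omega) (Nat.one_le_pow _ _ hm)
  have h2 := log_le_H (m ^ k)
  have h3 : Real.log ((m : ℝ) ^ k) ≤ Real.log (((m ^ k : ℕ) : ℝ) + 1) := by
    apply Real.log_le_log (by positivity)
    push_cast
    linarith
  rw [Real.log_pow] at h3
  rw [div_lt_iff₀ hpos] at hk
  nlinarith

/-! ### The main theorem -/

/-- A monotone partial function on the chain `Fin m`, viewed on the natural numbers. -/
def ext {t m : ℕ} (f : MonoPartial (Fin m) t) (x : ℕ) : Option ℕ :=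
  if h : x < m then (f.1 ⟨x, h⟩).map Fin.val else none

lemma ext_eq_some {t m : ℕ} (f : MonoPartial (Fin m) t) {x : ℕ} (hx : x < m) (a : ℕ) :
    ext f x = some a ↔ ∃ b : Fin t, f.1 ⟨x, hx⟩ = some b ∧ (b : ℕ) = a := by
  simp [ext, hx]

lemma ext_isSome {t m : ℕ} (f : MonoPartial (Fin m) t) {x : ℕ} (hx : x < m) :
    (ext f x).isSome = (f.1 ⟨x, hx⟩).isSome := by
  simp [ext, hx]

open Classical in
lemma fam_of_realiser {t m : ℕ} (w : MonoPartial (Fin m) t → ℝ) (hw : IsFracLocalRealiser w) {r : ℝ}
    (hr : ∀ x, load w x ≤ r) : Fam t m r := by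
  refine ⟨MonoPartial (Fin m) t, inferInstance, ext, w, hw.1, ?_, ?_, ?_, ?_⟩
  · intro f x a h
    by_cases hx : x < m
    · rw [ext_eq_some f hx] at h
      obtain ⟨b, _, rfl⟩ := h
      exact b.2
    · simp [ext, hx] at h
  · intro f x y a b hy hxy hx1 hy1
    have hx : x < m := lt_of_le_of_lt hxy hy
    rw [ext_eq_some f hx] at hx1
    rw [ext_eq_some f hy] at hy1
    obtain ⟨a', h1, rfl⟩ := hx1
    obtain ⟨b', h2, rfl⟩ := hy1
    exact f.2 _ _ a' b' h1 h2 hxy
  · intro x y hxy hy
    have hx : x < m := lt_trans hxy hy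
    have := hw.2 ⟨x, hx⟩ ⟨y, hy⟩ (by simpa using hxy)
    rw [sum_filter] at this
    refine this.trans (le_of_eq ?_)
    refine sum_congr rfl (fun f _ => ?_)
    have hiff : Separates f ⟨x, hx⟩ ⟨y, hy⟩ ↔ Sep (ext f) x y := by
      simp only [Separates, Sep, ext_eq_some f hx, ext_eq_some f hy]
      constructor
      · rintro ⟨a, b, h1, h2, h3⟩
        exact ⟨a, b, ⟨a, h1, rfl⟩, ⟨b, h2, rfl⟩, h3⟩
      · rintro ⟨_, _, ⟨a, h1, rfl⟩, ⟨b, h2, rfl⟩, h3⟩
        exact ⟨a, b, h1, h2, h3⟩
    simp only [hiff]
  · intro x hx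
    have := hr ⟨x, hx⟩
    rw [load, sum_filter] at this
    refine le_trans (le_of_eq ?_) this
    refine sum_congr rfl (fun f _ => ?_)
    rw [ext_isSome f hx]

/-- A monotone partial function with domain `{x, y}` separating `x < y`. -/
def pairFun {t m : ℕ} (ht : 2 ≤ t) (x y : Fin m) (hxy : x < y) : MonoPartial (Fin m) t :=
  ⟨fun z => if z = x then some ⟨0, by omega⟩ else if z = y then some ⟨1, by omega⟩ else none, by
    intro u v a b hu hv huv
    by_cases h1 : u = x
    · rw [if_pos h1] at hu
      rw [← Option.some.inj hu]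
      exact Fin.mk_le_of_le_val (Nat.zero_le _)
    · rw [if_neg h1] at hu
      by_cases h2 : u = y
      · rw [if_pos h2] at hu
        by_cases h3 : v = x
        · exact absurd hxy (not_lt.mpr (by rw [← h2, ← h3]; exact huv))
        · rw [if_neg h3] at hv
          by_cases h4 : v = y
          · rw [if_pos h4] at hv
            rw [← Option.some.inj hu, ← Option.some.inj hv]
          · rw [if_neg h4] at hv
            exact absurd hv (by simp)
      · rw [if_neg h2] at hu
        exact absurd hu (by simp)⟩

lemma pairFun_sep {t m : ℕ} (ht : 2 ≤ t) (x y : Fin m) (hxy : x < y) :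
    Separates (pairFun ht x y hxy) x y := by
  refine ⟨⟨0, by omega⟩, ⟨1, by omega⟩, ?_, ?_, ?_⟩
  · simp [pairFun]
  · simp [pairFun, hxy.ne']
  · simp

/-- **Answer to Q1 (negated form).**  For all integers `t ≥ 2` and `m ≥ 1`, the fractional local
`t`-dimension of the chain with `m` elements is at least `log_t m`. -/
theorem result : ∀ t m : ℕ, 2 ≤ t → 1 ≤ m → Real.logb t m ≤ fldim t (Fin m) := by
  classical
  intro t m ht hm
  have htR : (1 : ℝ) < t := by exact_mod_cast ht
  have hlog : 0 < Real.log t := Real.log_pos htR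
  apply le_csInf
  · -- a realiser exists
    refine ⟨_, fun f => 1, ⟨fun f => zero_le_one, ?_⟩, rfl⟩
    intro x y hxy
    have hxy' : x < y := not_le.mp hxy
    refine single_le_sum (f := fun _ => (1 : ℝ)) (fun _ _ => zero_le_one)
      (mem_filter.mpr ⟨mem_univ _, pairFun_sep ht x y hxy'⟩)
  · rintro r ⟨w, hw, rfl⟩
    have hle : ∀ x, load w x ≤ ⨆ x, load w x := fun x => le_ciSup (Set.finite_range _).bddAbove x
    have := (fam_of_realiser w hw hle).log_le ht hm
    rw [Real.logb, div_le_iff₀ hlog]
    exact this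

end Pool.Agent.Results.MP_c6110c_co.ChainLogBound
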